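import Pool.Agent.Q273.AD.Stm

/-! Project AD (helper273), job ARCH3: archimedean estimates at the single places. -/

set_option autoImplicit false

namespace Pool.Agent.Q299.AD

open NumberField IsDedekindDomain Finset Pool.Agent.H691R3 Height Pool.Agent.W232.VA
open NumberField.mixedEmbedding Q273.AD Q273.MV

theorem arch3 : S_ARCH3 := by
  intro K _ _ n hn ξ hξ
  classical
  have : Nonempty (Fin n) := ⟨⟨0, hn⟩⟩
  set Ξ : ℝ := ∑ w : InfinitePlace K, ∑ j, normAtPlace w (ξ j) with hΞ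
  have hΞ0 : 0 ≤ Ξ := Finset.sum_nonneg fun w _ => Finset.sum_nonneg fun j _ => normAtPlace_nonneg _ _
  have hΞle : ∀ (w : InfinitePlace K) (j : Fin n), normAtPlace w (ξ j) ≤ Ξ := by
    intro w j
    have h1 : normAtPlace w (ξ j) ≤ ∑ j, normAtPlace w (ξ j) :=
      Finset.single_le_sum (f := fun j => normAtPlace w (ξ j))
        (fun j _ => normAtPlace_nonneg _ _) (Finset.mem_univ j)
    have h2 : ∑ j, normAtPlace w (ξ j) ≤ Ξ :=
      Finset.single_le_sum (f := fun w => ∑ j, normAtPlace w (ξ j))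
        (fun w _ => Finset.sum_nonneg fun j _ => normAtPlace_nonneg _ _) (Finset.mem_univ w)
    exact h1.trans h2
  have hlogΞ : 0 ≤ Real.log (Ξ + 1) := Real.log_nonneg (by linarith)
  refine ⟨Real.log (Ξ + 1), hlogΞ, ?_⟩
  intro x hx0 X Y hY hYX hX hxY w
  have hx0' : ((x 0 : 𝓞 K) : K) ≠ 0 := RingOfIntegers.coe_ne_zero_iff.mpr hx0
  have hx : cz x ≠ 0 := fun h => hx0' (congrFun h 0)
  set β : ℝ := max (w ((x 0 : 𝓞 K) : K)) (Y w) with hβ
  have hβY : Y w ≤ β := le_max_right _ _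
  have hβ0 : 0 < β := (hY w).trans_le hβY
  have hβX : β ≤ X := max_le (hX w) (hYX w)
  have hsup : (⨆ j, w (cz x j)) ≤ (Ξ + 1) * β := by
    refine ciSup_le fun j => ?_
    refine Fin.cases ?_ (fun j => ?_) j
    · have h1 : w (cz x 0) ≤ β := le_max_left _ _
      nlinarith [hβ0]
    · have h1 : w (cz x j.succ) = normAtPlace w (mixedEmbedding K ((x j.succ : 𝓞 K) : K)) :=
        (normAtPlace_apply w _).symm
      have h2 : mixedEmbedding K ((x j.succ : 𝓞 K) : K) =
          mixedEmbedding K ((x 0 : 𝓞 K) : K) * ξ j +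
          -(mixedEmbedding K ((x 0 : 𝓞 K) : K) * ξ j -
            mixedEmbedding K ((x j.succ : 𝓞 K) : K)) := by ring
      rw [h1, h2]
      refine (normAtPlace_add_le w _ _).trans ?_
      rw [normAtPlace_neg, map_mul, normAtPlace_apply]
      have h3 := hxY w j
      have h4 := hΞle w j
      have h5 : w ((x 0 : 𝓞 K) : K) ≤ β := le_max_left _ _
      have h6 : 0 ≤ normAtPlace w (ξ j) := normAtPlace_nonneg _ _
      have h7 : w ((x 0 : 𝓞 K) : K) * normAtPlace w (ξ j) ≤ β * Ξ :=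
        mul_le_mul h5 h4 h6 hβ0.le
      linarith
  have hlog : Real.log (⨆ j, w (cz x j)) ≤ Real.log (Ξ + 1) + Real.log β := by
    have hpos := sup_pos w.1 hx
    rw [← Real.log_mul (by linarith) hβ0.ne']
    exact Real.log_le_log hpos hsup
  constructor
  · have h1 := Real.log_le_log hβ0 hβX
    linarith
  · have h1 : Real.log β - Real.log (Y w) ≤
        pw ξ w (fun j => ((x j.succ : 𝓞 K) : K) / ((x 0 : 𝓞 K) : K)) := by
      unfold pw
      rw [← Real.log_div hβ0.ne' (hY w).ne']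
      refine Real.log_le_log (div_pos hβ0 (hY w)) ?_
      have hw0 : 0 < w ((x 0 : 𝓞 K) : K) := (InfinitePlace.pos_iff).2 hx0'
      set t : ℝ := ⨆ j, normAtPlace w (ξ j -
        mixedEmbedding K (((x j.succ : 𝓞 K) : K) / ((x 0 : 𝓞 K) : K))) with ht
      have hle : ∀ j, normAtPlace w (ξ j -
          mixedEmbedding K (((x j.succ : 𝓞 K) : K) / ((x 0 : 𝓞 K) : K))) ≤
          Y w / w ((x 0 : 𝓞 K) : K) := by
        intro j
        rw [le_div_iff₀ hw0, mul_comm, ← normAtPlace_apply w ((x 0 : 𝓞 K) : K), ← map_mul,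
          mul_sub, ← map_mul, mul_div_cancel₀ _ hx0']
        exact hxY w j
      have ht1 : t ≤ Y w / w ((x 0 : 𝓞 K) : K) := ciSup_le hle
      have ht0 : 0 < t := by
        have h2 : normAtPlace w (ξ ⟨0, hn⟩ -
            mixedEmbedding K (((x (Fin.succ ⟨0, hn⟩) : 𝓞 K) : K) / ((x 0 : 𝓞 K) : K))) ≤ t :=
          Finite.le_ciSup_of_le (f := fun j => normAtPlace w (ξ j -
            mixedEmbedding K (((x j.succ : 𝓞 K) : K) / ((x 0 : 𝓞 K) : K)))) ⟨0, hn⟩ le_rfl
        exact lt_of_lt_of_le (lt_of_le_of_ne (normAtPlace_nonneg _ _) (hξ w _ _).symm) h2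
      have ht2 : w ((x 0 : 𝓞 K) : K) / Y w ≤ t⁻¹ := by
        rw [← one_div, div_le_div_iff₀ (hY w) ht0]
        rw [le_div_iff₀ hw0] at ht1
        linarith
      rw [hβ, div_le_iff₀ (hY w)]
      refine max_le ?_ ?_
      · rw [div_le_iff₀ (hY w)] at ht2
        exact ht2.trans (mul_le_mul_of_nonneg_right (le_max_right _ _) (hY w).le)
      · have h3 := mul_le_mul_of_nonneg_right (le_max_left (1 : ℝ) t⁻¹) (hY w).le
        linarith
    linarith

end Pool.Agent.Q299.AD
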