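import Pool.Agent.Q299.AD.Nrm

/-! Project AD (helper273), job BALL: the measure of a finite intersection of balls. -/

set_option autoImplicit false

namespace Pool.Agent.Q299.AD

open NumberField IsDedekindDomain MeasureTheory Pool.Agent.H691R3 Pool.Agent.W232.VA Q273.AD

/-- an algebraic integer as an integral vector -/
theorem exists_int {K : Type} [Field K] [NumberField K] (v : HeightOneSpectrum (𝓞 K)) (a : 𝓞 K) :
    ∃ z : v.adicCompletionIntegers K, (z : v.adicCompletion K) = FinitePlace.embedding v (a : K) :=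
  ⟨algebraMap (𝓞 K) (v.adicCompletionIntegers K) a, rfl⟩

theorem ball : S_BALL := by
  intro K _ _ n _ _ μ _ _ V y k
  classical
  set B : Set (FinAd K n) := {η : FinAd K n | ∀ v ∈ V, ∀ j,
    ‖(η v j : v.adicCompletion K) - FinitePlace.embedding v (y j)‖ ≤ ((Nv v) ^ (k v))⁻¹} with hB
  have hBc : IsClosed B := by
    have h1 : B = ⋂ v ∈ V, ⋂ j, {η : FinAd K n |
        ‖(η v j : v.adicCompletion K) - FinitePlace.embedding v (y j)‖ ≤ ((Nv v) ^ (k v))⁻¹} := by
      ext η
      simp only [hB, Set.mem_iInter, Set.mem_ofPred_eq]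
    rw [h1]
    refine isClosed_biInter fun v _ => isClosed_iInter fun j => isClosed_le ?_ continuous_const
    exact continuous_norm.comp ((continuous_subtype_val.comp
      ((continuous_apply j).comp (continuous_apply v))).sub continuous_const)
  have hBm : MeasurableSet B := hBc.measurableSet
  let J : Ideal (𝓞 K) := ∏ v ∈ V, v.asIdeal ^ (k v)
  have hJ : J ≠ ⊥ := by
    have h1 : J ≠ 0 := Finset.prod_ne_zero_iff.2 fun v _ => pow_ne_zero _ v.ne_bot
    exact h1
  have hfin : Finite (𝓞 K ⧸ J) := J.finiteQuotientOfFreeOfNeBot hJ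
  have hJmem : ∀ r : 𝓞 K, (∀ v ∈ V, r ∈ v.asIdeal ^ (k v)) → r ∈ J := by
    intro r hr
    have h1 : (V.inf fun v => v.asIdeal ^ (k v)) = J :=
      IsDedekindDomain.inf_pow_eq_prod_of_prime V (fun v => v.asIdeal) k (fun v _ => v.prime)
        (fun v _ w _ hvw h => hvw (HeightOneSpectrum.ext h))
    rw [← h1, Submodule.mem_finsetInf]
    exact hr
  let Q : Type := Fin n → 𝓞 K ⧸ J
  have hcQ : ((Nat.card Q : ℕ) : ℝ) = ∏ v ∈ V, (Nv v) ^ (n * k v) := by
    have h1 : Nat.card Q = (Ideal.absNorm J) ^ n := by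
      rw [Nat.card_fun, Nat.card_fin, Ideal.absNorm_apply, Submodule.cardQuot_apply]
    rw [h1, map_prod]
    push_cast
    rw [← Finset.prod_pow]
    refine Finset.prod_congr rfl fun v _ => ?_
    rw [map_pow]
    push_cast
    rw [← pow_mul, mul_comm]
    rfl
  choose a ha using fun c : 𝓞 K ⧸ J => Ideal.Quotient.mk_surjective c
  choose z hz using fun (v : HeightOneSpectrum (𝓞 K)) (r : 𝓞 K) => exists_int (K := K) v r
  let t : Q → FinAd K n := fun c v j => z v (a (c j))
  let E : Q → Set (FinAd K n) := fun c => (fun η => t c + η) ⁻¹' B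
  have hE : ∀ c, μ (E c) = μ B := fun c => measure_preimage_add μ (t c) B
  have hEm : ∀ c, MeasurableSet (E c) := fun c => by
    have hc : Continuous fun η : FinAd K n => t c + η := continuous_const.add continuous_id
    exact hc.measurable hBm
  have hdisj : Pairwise (Function.onFun Disjoint E) := by
    intro c c' hc
    rw [Function.onFun, Set.disjoint_left]
    intro η h1 h2
    apply hc
    funext j
    rw [← ha (c j), ← ha (c' j), Ideal.Quotient.eq]
    refine hJmem _ fun v hv => ?_
    rw [← emb_int_pow]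
    have h3 : ‖((t c + η) v j : v.adicCompletion K) - FinitePlace.embedding v (y j)‖ ≤
      ((Nv v) ^ (k v))⁻¹ := h1 v hv j
    have h4 : ‖((t c' + η) v j : v.adicCompletion K) - FinitePlace.embedding v (y j)‖ ≤
      ((Nv v) ^ (k v))⁻¹ := h2 v hv j
    have h5 : ∀ c, ((t c + η) v j : v.adicCompletion K) =
        FinitePlace.embedding v ((a (c j) : 𝓞 K) : K) + (η v j : v.adicCompletion K) := by
      intro c
      rw [← hz]
      rfl
    have h6 : FinitePlace.embedding v ((a (c j) - a (c' j) : 𝓞 K) : K) =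
        (((t c + η) v j : v.adicCompletion K) - FinitePlace.embedding v (y j)) -
        (((t c' + η) v j : v.adicCompletion K) - FinitePlace.embedding v (y j)) := by
      have h7 : ((a (c j) - a (c' j) : 𝓞 K) : K) = ((a (c j) : 𝓞 K) : K) - ((a (c' j) : 𝓞 K) : K) :=
        map_sub (algebraMap (𝓞 K) K) _ _
      rw [h5, h5, h7, map_sub]
      ring
    rw [h6]
    exact (nrm_sub_le v _ _).trans (max_le h3 h4)
  have hQ : Finite Q := inferInstance
  have := Fintype.ofFinite Q
  have h1 : ((Nat.card Q : ℕ) : ENNReal) * μ B ≤ μ Set.univ := by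
    have h2 : μ (⋃ c, E c) = ∑ c, μ (E c) := by
      rw [measure_iUnion hdisj hEm, tsum_fintype]
    have h3 : ∑ c, μ (E c) = ((Nat.card Q : ℕ) : ENNReal) * μ B := by
      rw [Finset.sum_congr rfl fun c _ => hE c, Finset.sum_const, Finset.card_univ, nsmul_eq_mul,
        Nat.card_eq_fintype_card]
    rw [← h3, ← h2]
    exact measure_mono (Set.subset_univ _)
  have hpos : (0 : ℝ) < ((Nat.card Q : ℕ) : ℝ) := by
    rw [hcQ]
    exact Finset.prod_pos fun v _ => pow_pos (by linarith [two_le_Nv v]) _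
  have hne : ((Nat.card Q : ℕ) : ENNReal) ≠ 0 := by
    have h2 : (Nat.card Q : ℕ) ≠ 0 := by
      intro h
      rw [h] at hpos
      exact lt_irrefl _ (by exact_mod_cast hpos)
    exact_mod_cast h2
  have hinv : ENNReal.ofReal (∏ v ∈ V, ((Nv v) ^ (n * k v))⁻¹) = ((Nat.card Q : ℕ) : ENNReal)⁻¹ := by
    rw [Finset.prod_inv_distrib, ← hcQ, ENNReal.ofReal_inv_of_pos hpos, ENNReal.ofReal_natCast]
  rw [hinv, ← div_eq_mul_inv, ENNReal.le_div_iff_mul_le (Or.inl hne)
    (Or.inl (ENNReal.natCast_ne_top _)), mul_comm]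
  exact h1

end Pool.Agent.Q299.AD
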