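import Pool.Agent.Q273.AD.Stm
import Pool.Agent.Q273.MV.Ae

/-! Project AD (helper273), job FAE: countably many points with summable weights, almost every
adelic point. -/

set_option autoImplicit false

namespace Pool.Agent.Q299.AD

open NumberField IsDedekindDomain MeasureTheory Q273.AD Q273.MV NumberField.mixedEmbedding

open scoped Classical in
theorem fae (hPVM : S_PVM) (hFINT : S_FINT) : S_FAE := by
  intro K _ _ n hn _ _ μ _ _ V ε hε hε1 ι _ y W hW hWs
  have hσ : 0 < 1 - ε := by linarith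
  have hσ1 : 1 - ε < 1 := by linarith
  obtain ⟨C₂, hC₂, hF⟩ := hFINT K n hn μ V ε hε hε1
  have hmeas2 : ∀ i, Measurable fun η : FinAd K n => ENNReal.ofReal
      (Real.exp ((n : ℝ) * (1 - ε) * ∑ v ∈ V, pv v (η v) (y i))) := by
    intro i
    refine ENNReal.measurable_ofReal.comp (Real.measurable_exp.comp (Measurable.const_mul ?_ _))
    exact Finset.measurable_fun_sum V fun v _ => hPVM K n hn v (y i)
  -- for every radius the sum is finite almost everywhere
  have key : ∀ R : ℕ, ∀ᵐ p : (Fin n → mixedSpace K) × FinAd K n ∂(volume.prod μ),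
      ∑' i, ENNReal.ofReal (W i * ∏ j, fm K (1 - ε) R (mixedEmbedding K (y i j)) (p.1 j)) *
        ENNReal.ofReal (Real.exp ((n : ℝ) * (1 - ε) * ∑ v ∈ V, pv v (p.2 v) (y i))) < ⊤ := by
    intro R
    obtain ⟨C, hC, hint⟩ := fn_int K hσ hσ1 R n
    have hmeas : ∀ i, AEMeasurable (fun ξ : Fin n → mixedSpace K =>
        ENNReal.ofReal (W i * ∏ j, fm K (1 - ε) R (mixedEmbedding K (y i j)) (ξ j))) := fun i =>
      ((hint (fun j => mixedEmbedding K (y i j))).1.const_mul (W i)).aestronglyMeasurable.aemeasurable.ennreal_ofReal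
    have hmeas3 : ∀ i, AEMeasurable (fun p : (Fin n → mixedSpace K) × FinAd K n =>
        ENNReal.ofReal (W i * ∏ j, fm K (1 - ε) R (mixedEmbedding K (y i j)) (p.1 j)) *
        ENNReal.ofReal (Real.exp ((n : ℝ) * (1 - ε) * ∑ v ∈ V, pv v (p.2 v) (y i))))
        (volume.prod μ) := fun i =>
      ((hmeas i).comp_quasiMeasurePreserving Measure.quasiMeasurePreserving_fst).mul
        ((hmeas2 i).comp measurable_snd).aemeasurable
    have htot : ∫⁻ p : (Fin n → mixedSpace K) × FinAd K n,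
        ∑' i, ENNReal.ofReal (W i * ∏ j, fm K (1 - ε) R (mixedEmbedding K (y i j)) (p.1 j)) *
        ENNReal.ofReal (Real.exp ((n : ℝ) * (1 - ε) * ∑ v ∈ V, pv v (p.2 v) (y i)))
        ∂(volume.prod μ) ≠ ⊤ := by
      rw [lintegral_tsum hmeas3]
      have h1 : ∀ i, ∫⁻ p : (Fin n → mixedSpace K) × FinAd K n,
          ENNReal.ofReal (W i * ∏ j, fm K (1 - ε) R (mixedEmbedding K (y i j)) (p.1 j)) *
          ENNReal.ofReal (Real.exp ((n : ℝ) * (1 - ε) * ∑ v ∈ V, pv v (p.2 v) (y i)))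
          ∂(volume.prod μ) ≤ ENNReal.ofReal (W i * C) * C₂ := by
        intro i
        rw [lintegral_prod_mul (hmeas i) (hmeas2 i).aemeasurable]
        refine mul_le_mul' ?_ (hF (y i))
        rw [← ofReal_integral_eq_lintegral_ofReal
          ((hint (fun j => mixedEmbedding K (y i j))).1.const_mul (W i))
          (Filter.Eventually.of_forall fun ξ => mul_nonneg (hW i)
            (Finset.prod_nonneg fun j _ => fm_nonneg K _ _ _ _))]
        apply ENNReal.ofReal_le_ofReal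
        rw [integral_const_mul]
        exact mul_le_mul_of_nonneg_left (hint (fun j => mixedEmbedding K (y i j))).2 (hW i)
      have h2 : ∑' i, ENNReal.ofReal (W i * C) * C₂ ≠ ⊤ := by
        rw [ENNReal.tsum_mul_right]
        exact ENNReal.mul_ne_top (hWs.mul_right C).tsum_ofReal_ne_top hC₂
      exact ne_top_of_le_ne_top h2 (ENNReal.tsum_le_tsum h1)
    exact ae_lt_top' (AEMeasurable.ennreal_tsum hmeas3) htot
  have hne' : ∀ᵐ p : (Fin n → mixedSpace K) × FinAd K n ∂(volume.prod μ), ∀ i j,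
      ∀ w : InfinitePlace K, 0 < normAtPlace w (p.1 j - mixedEmbedding K (y i j)) :=
    Measure.quasiMeasurePreserving_fst.ae (ae_ne K (fun i j => mixedEmbedding K (y i j)))
  filter_upwards [ae_all_iff.2 key, hne'] with p hp hne
  -- the radius
  obtain ⟨R, hR⟩ : ∃ R : ℕ, ∀ j, ∀ w : InfinitePlace K, normAtPlace w (p.1 j) ≤ R := by
    obtain ⟨B, hB⟩ := (Set.finite_range (fun q : Fin n × InfinitePlace K =>
      normAtPlace q.2 (p.1 q.1))).bddAbove
    obtain ⟨R, hR⟩ := exists_nat_ge B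
    exact ⟨R, fun j w => (hB ⟨(j, w), rfl⟩).trans hR⟩
  refine ⟨(∑' i, ENNReal.ofReal (W i * ∏ j, fm K (1 - ε) R
    (mixedEmbedding K (y i j)) (p.1 j)) *
    ENNReal.ofReal (Real.exp ((n : ℝ) * (1 - ε) * ∑ v ∈ V, pv v (p.2 v) (y i)))).toReal,
    fun i => ?_⟩
  have h1 : W i * Real.exp ((n : ℝ) * (1 - ε) * prox p.1 (y i)) ≤
      W i * ∏ j, fm K (1 - ε) R (mixedEmbedding K (y i j)) (p.1 j) :=
    mul_le_mul_of_nonneg_left (prox_le K hn hσ p.1 (y i) R (hne i) hR) (hW i)
  have h2 : ENNReal.ofReal ((W i * ∏ j, fm K (1 - ε) R (mixedEmbedding K (y i j)) (p.1 j)) *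
      Real.exp ((n : ℝ) * (1 - ε) * ∑ v ∈ V, pv v (p.2 v) (y i))) ≤
      ∑' i, ENNReal.ofReal (W i * ∏ j, fm K (1 - ε) R (mixedEmbedding K (y i j)) (p.1 j)) *
      ENNReal.ofReal (Real.exp ((n : ℝ) * (1 - ε) * ∑ v ∈ V, pv v (p.2 v) (y i))) := by
    rw [ENNReal.ofReal_mul (mul_nonneg (hW i)
      (Finset.prod_nonneg fun j _ => fm_nonneg K _ _ _ _))]
    exact ENNReal.le_tsum (f := fun i => ENNReal.ofReal (W i * ∏ j, fm K (1 - ε) R
      (mixedEmbedding K (y i j)) (p.1 j)) *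
      ENNReal.ofReal (Real.exp ((n : ℝ) * (1 - ε) * ∑ v ∈ V, pv v (p.2 v) (y i)))) i
  have h3 := (ENNReal.ofReal_le_iff_le_toReal (hp R).ne).1 h2
  refine le_trans ?_ h3
  rw [mul_add, Real.exp_add, ← mul_assoc]
  exact mul_le_mul_of_nonneg_right h1 (Real.exp_pos _).le

end Pool.Agent.Q299.AD
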