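import Pool.Agent.Q273.AD.Stm

/-! Project AD (helper273), job FGEN: almost every finite adelic vector lies on no hyperplane over
`K`. -/

set_option autoImplicit false

namespace Pool.Agent.Q299.AD

open NumberField IsDedekindDomain MeasureTheory Q273.AD Filter

theorem countable_nf (K : Type) [Field K] [NumberField K] : Countable K :=
  ((Module.finBasis ℚ K).equivFun.toEquiv.countable_iff).2 inferInstance

theorem countable_pr (K : Type) [Field K] [NumberField K] :
    Countable (HeightOneSpectrum (𝓞 K)) := by
  have := countable_nf K
  have h1 : Countable (𝓞 K) := (RingOfIntegers.coe_injective (K := K)).countable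
  have h2 : ∀ v : HeightOneSpectrum (𝓞 K), ∃ s : Finset (𝓞 K), Ideal.span (s : Set (𝓞 K)) = v.asIdeal :=
    fun v => (IsNoetherian.noetherian v.asIdeal : v.asIdeal.FG)
  choose f hf using h2
  exact Function.Injective.countable (f := f) fun v v' h => by
    apply HeightOneSpectrum.ext
    rw [← hf v, ← hf v', h]

theorem fgen : S_FGEN := by
  intro K _ _ n _ _ μ _ _
  classical
  have := countable_nf K
  have := countable_pr K
  rw [ae_all_iff]
  intro v
  rw [ae_all_iff]
  intro b
  by_cases hb : b = 0
  · exact Eventually.of_forall fun η h => absurd hb h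
  by_cases hb' : ∀ j : Fin n, b j.succ = 0
  · refine Eventually.of_forall fun η _ => ?_
    have hb0 : b 0 ≠ 0 := by
      intro h0
      apply hb
      funext i
      refine Fin.cases h0 (fun j => hb' j) i
    have h1 : ∑ j : Fin n, FinitePlace.embedding v (b j.succ) * (η v j : v.adicCompletion K) = 0 :=
      Finset.sum_eq_zero fun j _ => by rw [hb' j, map_zero, zero_mul]
    rw [h1, add_zero]
    exact (map_ne_zero _).2 hb0
  push Not at hb'
  obtain ⟨j₀, hj₀⟩ := hb'
  let Z : Set (FinAd K n) := {η | FinitePlace.embedding v (b 0) +
    ∑ j : Fin n, FinitePlace.embedding v (b j.succ) * (η v j : v.adicCompletion K) = 0}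
  have hcont : Continuous fun η : FinAd K n => FinitePlace.embedding v (b 0) +
      ∑ j : Fin n, FinitePlace.embedding v (b j.succ) * (η v j : v.adicCompletion K) := by
    refine continuous_const.add (continuous_finsetSum _ fun j _ => continuous_const.mul ?_)
    exact continuous_subtype_val.comp ((continuous_apply j).comp (continuous_apply v))
  have hZ : IsClosed Z := isClosed_eq hcont continuous_const
  have hZm : MeasurableSet Z := hZ.measurableSet
  suffices h0 : μ Z = 0 by
    have h1 : ∀ᵐ η ∂μ, η ∉ Z := measure_eq_zero_iff_ae_notMem.1 h0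
    filter_upwards [h1] with η hη _ h2 using hη h2
  let t : ℕ → FinAd K n := fun r => Pi.single v (Pi.single j₀ (r : v.adicCompletionIntegers K))
  let E : ℕ → Set (FinAd K n) := fun r => (fun η => t r + η) ⁻¹' Z
  have hE : ∀ r, μ (E r) = μ Z := fun r => measure_preimage_add μ (t r) Z
  have hEm : ∀ r, MeasurableSet (E r) := fun r => by
    have hc : Continuous fun η : FinAd K n => t r + η := continuous_const.add continuous_id
    exact hc.measurable hZm
  have hform : ∀ r (η : FinAd K n), ∑ j : Fin n, FinitePlace.embedding v (b j.succ) *
      ((t r + η) v j : v.adicCompletion K) = FinitePlace.embedding v (b j₀.succ) * (r : ℕ) +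
        ∑ j : Fin n, FinitePlace.embedding v (b j.succ) * (η v j : v.adicCompletion K) := by
    intro r η
    have h1 : ∀ j, ((t r + η) v j : v.adicCompletion K) =
        (if j = j₀ then ((r : ℕ) : v.adicCompletion K) else 0) + (η v j : v.adicCompletion K) := by
      intro j
      have h2 : (t r + η) v j = t r v j + η v j := rfl
      have h3 : t r v = Pi.single j₀ (r : v.adicCompletionIntegers K) := Pi.single_eq_same _ _
      rw [h2, h3]
      by_cases hj : j = j₀
      · subst hj
        rw [Pi.single_eq_same, if_pos rfl]
        push_cast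
        rfl
      · rw [Pi.single_eq_of_ne hj, if_neg hj]
        push_cast
        rfl
    simp only [h1, mul_add, Finset.sum_add_distrib, mul_ite, mul_zero, Finset.sum_ite_eq',
      Finset.mem_univ, if_true]
  have hdisj : Pairwise (Function.onFun Disjoint E) := by
    intro r r' hr
    rw [Function.onFun, Set.disjoint_left]
    intro η h1 h2
    apply hr
    have h3 : FinitePlace.embedding v (b 0) + ∑ j : Fin n, FinitePlace.embedding v (b j.succ) *
      ((t r + η) v j : v.adicCompletion K) = 0 := h1
    have h4 : FinitePlace.embedding v (b 0) + ∑ j : Fin n, FinitePlace.embedding v (b j.succ) *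
      ((t r' + η) v j : v.adicCompletion K) = 0 := h2
    rw [hform] at h3 h4
    have h5 : FinitePlace.embedding v (b j₀.succ) * ((r : ℕ) : v.adicCompletion K) =
        FinitePlace.embedding v (b j₀.succ) * ((r' : ℕ) : v.adicCompletion K) := by
      linear_combination h3 - h4
    have h6 := mul_left_cancel₀ ((map_ne_zero _).2 hj₀) h5
    rw [← map_natCast (FinitePlace.embedding v) r, ← map_natCast (FinitePlace.embedding v) r'] at h6
    have h7 : (r : K) = (r' : K) := (FinitePlace.embedding v).injective h6
    exact Nat.cast_injective h7
  by_contra h0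
  have h1 : ∑' r, μ (E r) = μ (⋃ r, E r) := (measure_iUnion hdisj hEm).symm
  have h2 : μ (⋃ r, E r) < ⊤ := measure_lt_top μ _
  rw [← h1] at h2
  simp only [hE] at h2
  rw [ENNReal.tsum_const_eq_top_of_ne_zero h0] at h2
  exact lt_irrefl _ h2

end Pool.Agent.Q299.AD
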