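import Pool.Agent.Q299.AD.Nrm

/-! Project AD (helper273), jobs ZERO and LOCV. -/

set_option autoImplicit false

namespace Pool.Agent.Q299.AD

open NumberField IsDedekindDomain Finset Pool.Agent.H691R3 Pool.Agent.W232.VA
open Q273.AD Q273.MV

theorem zero : S_ZERO := by
  intro K _ _ z hz V m Y hV hY hw
  classical
  have hz' : (z : K) ≠ 0 := RingOfIntegers.coe_ne_zero_iff.mpr hz
  have h1 := log_product_formula hz'
  set F := (log_fv_support_finite hz').toFinset with hF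
  have g2 : ∑ᶠ v : HeightOneSpectrum (𝓞 K), Real.log (fv v (z : K)) =
      ∑ v ∈ F ∪ V, Real.log (fv v (z : K)) := by
    refine finsum_eq_sum_of_support_subset _ ?_
    intro v hv
    rw [Finset.coe_union]
    left
    rw [hF, Set.Finite.coe_toFinset]
    exact hv
  have h2 : ∀ v : HeightOneSpectrum (𝓞 K), Real.log (fv v (z : K)) ≤ 0 := fun v =>
    Real.log_nonpos ((fv v).nonneg _) (fv_int_le_one v z)
  have h3 : ∑ v ∈ F ∪ V, Real.log (fv v (z : K)) ≤ ∑ v ∈ V, Real.log (fv v (z : K)) := by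
    have h := Finset.sum_le_sum_of_subset_of_nonneg (f := fun v => -Real.log (fv v (z : K)))
      (Finset.subset_union_right (s₁ := F) (s₂ := V))
      (fun v _ _ => by have := h2 v; linarith)
    rw [Finset.sum_neg_distrib, Finset.sum_neg_distrib] at h
    linarith
  have h4 : ∑ v ∈ V, Real.log (fv v (z : K)) ≤ ∑ v ∈ V, -((m v : ℝ) * Real.log (Nv v)) := by
    refine Finset.sum_le_sum fun v hv => ?_
    have h := Real.log_le_log ((fv v).pos hz') ((fv_le_pow_iff v z (m v)).mpr (hV v hv))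
    rw [Real.log_zpow] at h
    push_cast at h
    linarith
  rw [Finset.sum_neg_distrib] at h4
  have h5 : ∑ w : InfinitePlace K, (w.mult : ℝ) * Real.log (w (z : K)) ≤
      ∑ w : InfinitePlace K, (w.mult : ℝ) * Real.log (Y w) := by
    refine Finset.sum_le_sum fun w _ => mul_le_mul_of_nonneg_left ?_ (Nat.cast_nonneg _)
    exact Real.log_le_log (InfinitePlace.pos_iff.2 hz') (hw w)
  linarith

theorem locv : S_LOCV := by
  intro K _ _ n hn v z hz a m x hx0 ha hxa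
  have : Nonempty (Fin n) := ⟨⟨0, hn⟩⟩
  have hx0' : ((x 0 : 𝓞 K) : K) ≠ 0 := RingOfIntegers.coe_ne_zero_iff.mpr hx0
  have hx : cz x ≠ 0 := fun h => hx0' (congrFun h 0)
  have hN : 0 < (Nv v) ^ m := pow_pos (by linarith [two_le_Nv v]) m
  have hX0 : 0 < fv v ((x 0 : 𝓞 K) : K) := (fv v).pos hx0'
  have hX1 : ‖FinitePlace.embedding v ((x 0 : 𝓞 K) : K)‖ ≤ 1 := emb_int_le v (x 0)
  have e1 : ∀ j : Fin n, ‖FinitePlace.embedding v ((a j * x 0 - x j.succ : 𝓞 K) : K)‖ ≤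
      ((Nv v) ^ m)⁻¹ := by
    intro j
    rw [emb_int_pow]
    have h2 : a j * x 0 - x j.succ = -(x j.succ - a j * x 0) := by ring
    rw [h2]
    exact (v.asIdeal ^ m).neg_mem (hxa j)
  set t : ℝ := ⨆ j, ‖(z j : v.adicCompletion K) -
    FinitePlace.embedding v (((x j.succ : 𝓞 K) : K) / ((x 0 : 𝓞 K) : K))‖ with ht
  have e2 : ∀ j, ‖(z j : v.adicCompletion K) -
      FinitePlace.embedding v (((x j.succ : 𝓞 K) : K) / ((x 0 : 𝓞 K) : K))‖ ≤
      ((Nv v) ^ m)⁻¹ / fv v ((x 0 : 𝓞 K) : K) := by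
    intro j
    rw [le_div_iff₀ hX0, ← nrm_emb, ← norm_mul]
    have h4 : FinitePlace.embedding v (((x j.succ : 𝓞 K) : K) / ((x 0 : 𝓞 K) : K)) *
        FinitePlace.embedding v ((x 0 : 𝓞 K) : K) =
        FinitePlace.embedding v ((x j.succ : 𝓞 K) : K) := by
      rw [← map_mul, div_mul_cancel₀ _ hx0']
    have h5 : FinitePlace.embedding v ((a j * x 0 - x j.succ : 𝓞 K) : K) =
        FinitePlace.embedding v ((a j : 𝓞 K) : K) * FinitePlace.embedding v ((x 0 : 𝓞 K) : K) -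
        FinitePlace.embedding v ((x j.succ : 𝓞 K) : K) := by
      rw [← map_mul, ← map_sub]
      norm_cast
    have h3 : ((z j : v.adicCompletion K) -
        FinitePlace.embedding v (((x j.succ : 𝓞 K) : K) / ((x 0 : 𝓞 K) : K))) *
        FinitePlace.embedding v ((x 0 : 𝓞 K) : K) =
        ((z j : v.adicCompletion K) - FinitePlace.embedding v ((a j : 𝓞 K) : K)) *
        FinitePlace.embedding v ((x 0 : 𝓞 K) : K) +
        FinitePlace.embedding v ((a j * x 0 - x j.succ : 𝓞 K) : K) := by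
      rw [sub_mul, h4, h5]
      ring
    rw [h3]
    refine (nrm_add_le v _ _).trans (max_le ?_ (e1 j))
    rw [norm_mul]
    calc _ ≤ ((Nv v) ^ m)⁻¹ * 1 :=
          mul_le_mul (ha j) hX1 (norm_nonneg _) (inv_nonneg.2 hN.le)
      _ = ((Nv v) ^ m)⁻¹ := mul_one _
  have ht1 : t ≤ ((Nv v) ^ m)⁻¹ / fv v ((x 0 : 𝓞 K) : K) := ciSup_le e2
  have ht0 : 0 < t := by
    have h2 : ‖(z ⟨0, hn⟩ : v.adicCompletion K) -
        FinitePlace.embedding v (((x (Fin.succ ⟨0, hn⟩) : 𝓞 K) : K) / ((x 0 : 𝓞 K) : K))‖ ≤ t :=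
      Finite.le_ciSup_of_le (f := fun j => ‖(z j : v.adicCompletion K) -
        FinitePlace.embedding v (((x j.succ : 𝓞 K) : K) / ((x 0 : 𝓞 K) : K))‖) ⟨0, hn⟩ le_rfl
    exact lt_of_lt_of_le (norm_pos_iff.2 (sub_ne_zero.2 (hz _ _))) h2
  have hS : (⨆ i, fv v (cz x i)) ≤ max (fv v ((x 0 : 𝓞 K) : K)) ((Nv v) ^ m)⁻¹ := by
    refine ciSup_le fun i => ?_
    refine Fin.cases (le_max_left _ _) (fun j => ?_) i
    have h5 : ((x j.succ : 𝓞 K) : K) = ((a j * x 0 : 𝓞 K) : K) -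
        ((a j * x 0 - x j.succ : 𝓞 K) : K) := by
      rw [← map_sub]
      congr 1
      ring
    change fv v ((x j.succ : 𝓞 K) : K) ≤ _
    rw [← nrm_emb, h5, map_sub]
    refine (nrm_sub_le v _ _).trans (max_le ?_ ((e1 j).trans (le_max_right _ _)))
    refine le_trans ?_ (le_max_left _ _)
    have h6 : ((a j * x 0 : 𝓞 K) : K) = ((a j : 𝓞 K) : K) * ((x 0 : 𝓞 K) : K) :=
      map_mul (algebraMap (𝓞 K) K) _ _
    rw [h6, map_mul, norm_mul, nrm_emb, nrm_emb]
    calc _ ≤ 1 * fv v ((x 0 : 𝓞 K) : K) :=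
          mul_le_mul_of_nonneg_right (fv_int_le_one v (a j)) hX0.le
      _ = _ := one_mul _
  have hSpos : 0 < ⨆ i, fv v (cz x i) := sup_pos (fv v) hx
  unfold lg pv
  rw [← Real.log_pow, ← Real.log_mul hN.ne' hSpos.ne']
  refine Real.log_le_log (mul_pos hN hSpos) ?_
  refine (mul_le_mul_of_nonneg_left hS hN.le).trans ?_
  rw [mul_max_of_nonneg _ _ hN.le, mul_inv_cancel₀ hN.ne']
  refine max_le ?_ (le_max_left _ _)
  refine le_trans ?_ (le_max_right _ _)
  rw [← one_div, le_div_iff₀ ht0]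
  rw [le_div_iff₀ hX0] at ht1
  have h6 := mul_le_mul_of_nonneg_left ht1 hN.le
  rw [mul_inv_cancel₀ hN.ne'] at h6
  linarith

end Pool.Agent.Q299.AD
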