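import Pool.Agent.Q273.AD.Stm

/-! Project AD (helper273): the norm of the completion is nonarchimedean. -/

set_option autoImplicit false

namespace Pool.Agent.Q299.AD

open NumberField IsDedekindDomain Finset Pool.Agent.H691R3 Pool.Agent.W232.VA
open WithZeroMulInt NumberField.HeightOneSpectrum

variable {K : Type} [Field K] [NumberField K] (v : HeightOneSpectrum (𝓞 K))

theorem nrm_add_le (x y : v.adicCompletion K) : ‖x + y‖ ≤ max ‖x‖ ‖y‖ := by
  rw [FinitePlace.norm_def, FinitePlace.norm_def, FinitePlace.norm_def, ← NNReal.coe_max,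
    NNReal.coe_le_coe,
    ← (toNNReal_strictMono (one_lt_absNorm_nnreal v)).monotone.map_max]
  exact (toNNReal_strictMono (one_lt_absNorm_nnreal v)).monotone (Valued.v.map_add x y)

theorem nrm_sub_le (x y : v.adicCompletion K) : ‖x - y‖ ≤ max ‖x‖ ‖y‖ := by
  have h := nrm_add_le v x (-y)
  rwa [← sub_eq_add_neg, norm_neg] at h

theorem nrm_emb (x : K) : ‖FinitePlace.embedding v x‖ = fv v x := rfl

theorem zpow_inv (m : ℕ) : (Nv v) ^ (-(m : ℤ)) = ((Nv v) ^ m)⁻¹ := by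
  rw [zpow_neg, zpow_natCast]

theorem emb_int_le (a : 𝓞 K) : ‖FinitePlace.embedding v (a : K)‖ ≤ 1 := fv_int_le_one v a

theorem emb_int_pow (a : 𝓞 K) (m : ℕ) :
    ‖FinitePlace.embedding v (a : K)‖ ≤ ((Nv v) ^ m)⁻¹ ↔ a ∈ v.asIdeal ^ m := by
  rw [nrm_emb, ← zpow_inv, fv_le_pow_iff]

end Pool.Agent.Q299.AD
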